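import Mathlib

set_option autoImplicit false

namespace Pool.Agent.Results.MP_092965_lc.Counter

open MeasureTheory Filter Topology Set ProbabilityTheory

/-- Solecki's amenability at 1. -/
def AmenableAtOne (G : Type) [Group G] [TopologicalSpace G] [MeasurableSpace G] : Prop :=
  ∀ μ : ℕ → Measure G, (∀ n, IsProbabilityMeasure (μ n)) → (∀ n, (1 : G) ∈ (μ n).support) →
    ∃ (ν' : ℕ → Measure G) (ν : Measure G), (∀ n, IsProbabilityMeasure (ν' n)) ∧
      IsProbabilityMeasure ν ∧ (∀ n, ν' n ≪ μ n) ∧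
      ∀ K : Set G, IsCompact K →
        Tendsto (fun n => (ν.prod (ν' n)) {p : G × G | p.1 * p.2 ∈ K}) atTop (𝓝 (ν K))

/-- Left Haar null sets. -/
def LeftHaarNull {G : Type} [Group G] [MeasurableSpace G] (A : Set G) : Prop :=
  ∃ B : Set G, MeasurableSet B ∧ A ⊆ B ∧ ∃ μ : Measure G, IsProbabilityMeasure μ ∧
    ∀ g : G, μ ((fun x => g * x) '' B) = 0

/-- Right Haar null sets. -/
def RightHaarNull {G : Type} [Group G] [MeasurableSpace G] (A : Set G) : Prop :=
  ∃ B : Set G, MeasurableSet B ∧ A ⊆ B ∧ ∃ μ : Measure G, IsProbabilityMeasure μ ∧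
    ∀ g : G, μ ((fun x => x * g) '' B) = 0

/-- The infinite dihedral group. -/
def H : Type := ℤ × ℤˣ

instance : Group H where
  mul a b := (a.1 + a.2 * b.1, a.2 * b.2)
  one := (0, 1)
  inv a := (-(a.2 * a.1), a.2)
  mul_assoc a b c := by
    show ((a.1 + a.2 * b.1 + ((a.2 * b.2 : ℤˣ) : ℤ) * c.1, a.2 * b.2 * c.2) : ℤ × ℤˣ) =
      (a.1 + a.2 * (b.1 + b.2 * c.1), a.2 * (b.2 * c.2))
    ext
    · simp; ring
    · simp [mul_assoc]
  one_mul a := by
    show ((0 + ((1 : ℤˣ) : ℤ) * a.1, 1 * a.2) : ℤ × ℤˣ) = (a.1, a.2)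
    simp
  mul_one a := by
    show ((a.1 + a.2 * 0, a.2 * 1) : ℤ × ℤˣ) = (a.1, a.2)
    simp
  inv_mul_cancel a := by
    show ((-(a.2 * a.1) + a.2 * a.1, a.2 * a.2) : ℤ × ℤˣ) = (0, 1)
    simp

theorem mul_fst (a b : H) : (a * b).1 = a.1 + a.2 * b.1 := rfl
theorem mul_snd (a b : H) : (a * b).2 = a.2 * b.2 := rfl

instance : TopologicalSpace H := ⊥
instance : DiscreteTopology H := ⟨rfl⟩
instance : MeasurableSpace H := ⊤
instance : DiscreteMeasurableSpace H := ⟨fun _ => trivial⟩
instance : BorelSpace H := inferInstance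
instance : Countable H := inferInstanceAs (Countable (ℤ × ℤˣ))
instance : DecidableEq H := inferInstanceAs (DecidableEq (ℤ × ℤˣ))
instance : IsTopologicalGroup H := inferInstance

theorem map_unif (S : Finset H) (φ : H → H) (h : BijOn φ S S) :
    (uniformOn (S : Set H)).map φ = uniformOn (S : Set H) := by
  ext t ht
  rw [Measure.map_apply Measurable.of_discrete ht, uniformOn, cond_apply S.measurableSet,
    cond_apply S.measurableSet]
  congr 1
  rw [Measure.count_apply MeasurableSet.of_discrete, Measure.count_apply MeasurableSet.of_discrete]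
  have : φ '' ((S : Set H) ∩ φ ⁻¹' t) = (S : Set H) ∩ t := by
    rw [image_inter_preimage, h.image_eq]
  rw [← this, (h.injOn.mono inter_subset_left).encard_image]

theorem ext_perm (S : Finset H) (y : H) :
    ∃ φ : H → H, BijOn φ S S ∧ ∀ x ∈ S, x * y ∈ S → φ x = x * y := by
  classical
  obtain ⟨g, hg⟩ := Finset.exists_equiv_extend_of_card_eq (α := S) (t := S) (by simp)
    (s := Finset.univ.filter fun x : S => x.1 * y ∈ S) (f := fun x : S => x.1 * y)
    (by
      intro z hz
      obtain ⟨x, hx, rfl⟩ := Finset.mem_image.1 hz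
      exact (Finset.mem_filter.1 hx).2)
    (fun a _ b _ e => Subtype.ext (mul_right_cancel e))
  refine ⟨fun x => if h : x ∈ S then (g ⟨x, h⟩ : H) else x, ⟨?_, ?_, ?_⟩, ?_⟩
  · intro x hx
    have hx' : x ∈ S := hx
    simp [hx']
  · intro a ha b hb e
    have ha' : a ∈ S := ha
    have hb' : b ∈ S := hb
    simp only [ha', hb', dif_pos] at e
    exact congrArg Subtype.val (g.injective (Subtype.ext e))
  · intro z hz
    refine ⟨g.symm ⟨z, hz⟩, (g.symm ⟨z, hz⟩).2, ?_⟩
    simp
  · intro x hx hxy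
    simp only [hx, dif_pos]
    exact hg ⟨x, hx⟩ (Finset.mem_filter.2 ⟨Finset.mem_univ _, hxy⟩)

theorem folner (F : Set H) (hF : F.Finite) (i : ℕ) :
    ∃ S : Finset H, S.Nonempty ∧ ∀ y ∈ F, uniformOn (S : Set H) {x | x * y ∉ S} ≤ 2⁻¹ ^ i := by
  classical
  obtain ⟨M, hM⟩ : ∃ M : ℕ, ∀ y ∈ F, y.1.natAbs ≤ M := by
    obtain ⟨M, hM⟩ := (hF.image fun y : H => y.1.natAbs).bddAbove
    exact ⟨M, fun y hy => hM ⟨y, hy, rfl⟩⟩
  set N : ℕ := 2 ^ i * (2 * (M + 1)) with hN
  have hNp : 0 < N := by positivity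
  let S : Finset H := (Finset.Ico (0 : ℤ) N) ×ˢ (Finset.univ : Finset ℤˣ)
  let T : Finset H := (Finset.Ico (0 : ℤ) M ∪ Finset.Ico ((N : ℤ) - M) N) ×ˢ
    (Finset.univ : Finset ℤˣ)
  have hS : ∀ x : H, x ∈ S ↔ 0 ≤ x.1 ∧ x.1 < N := fun x => by
    have := Finset.mem_product (s := Finset.Ico (0 : ℤ) N) (t := (Finset.univ : Finset ℤˣ))
      (p := x)
    rw [Finset.mem_Ico] at this
    exact this.trans (and_iff_left (Finset.mem_univ _))
  have hT : ∀ x : H, x ∈ T ↔ (0 ≤ x.1 ∧ x.1 < M) ∨ ((N : ℤ) - M ≤ x.1 ∧ x.1 < N) := fun x => by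
    have := Finset.mem_product (s := Finset.Ico (0 : ℤ) M ∪ Finset.Ico ((N : ℤ) - M) N)
      (t := (Finset.univ : Finset ℤˣ)) (p := x)
    rw [Finset.mem_union, Finset.mem_Ico, Finset.mem_Ico] at this
    exact this.trans (and_iff_left (Finset.mem_univ _))
  have cS : S.card = N * 2 := by
    have := Finset.card_product (Finset.Ico (0 : ℤ) N) (Finset.univ : Finset ℤˣ)
    refine this.trans ?_
    simp
  have cT : T.card ≤ (M + M) * 2 := by
    have := Finset.card_product (Finset.Ico (0 : ℤ) M ∪ Finset.Ico ((N : ℤ) - M) N)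
      (Finset.univ : Finset ℤˣ)
    have h2 := Finset.card_union_le (Finset.Ico (0 : ℤ) M) (Finset.Ico ((N : ℤ) - M) N)
    refine this.le.trans ?_
    have h3 : (Finset.univ : Finset ℤˣ).card = 2 := by simp
    rw [h3]
    simp at h2
    omega
  refine ⟨S, ⟨((0 : ℤ), (1 : ℤˣ)), (hS _).2 ⟨le_rfl, (by exact_mod_cast hNp : (0 : ℤ) < N)⟩⟩, fun y hy => ?_⟩
  rw [uniformOn, cond_apply S.measurableSet, Measure.count_apply_finset]
  have h1 : (S : Set H) ∩ {x | x * y ∉ S} ⊆ T := by
    rintro x ⟨a, b⟩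
    have a' := (hS x).1 a
    have b' : ¬ (0 ≤ (x * y).1 ∧ (x * y).1 < N) := fun h => b ((hS _).2 h)
    rw [mul_fst] at b'
    have := hM y hy
    refine (hT x).2 ?_
    rcases Int.units_eq_one_or x.2 with e | e <;> rw [e] at b' <;> simp at b' <;> omega
  have h2 : Measure.count ((S : Set H) ∩ {x | x * y ∉ S}) ≤ ((M + M) * 2 : ℕ) := by
    refine (measure_mono h1).trans ?_
    rw [Measure.count_apply_finset]
    exact_mod_cast cT
  rw [cS, ← ENNReal.inv_pow, ← ENNReal.div_eq_inv_mul,
    ENNReal.div_le_iff (by simp [hNp.ne']) (ENNReal.natCast_ne_top _), mul_comm, ← div_eq_mul_inv,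
    ENNReal.le_div_iff_mul_le (by simp) (by simp)]
  refine (mul_le_mul_left h2 _).trans ?_
  have : (M + M) * 2 * 2 ^ i ≤ N * 2 := by rw [hN]; nlinarith [Nat.two_pow_pos i]
  exact_mod_cast this

abbrev G : Type := ℕ → H

instance : PolishSpace G := PolishSpace.mk

theorem fin_coord {C : Set G} (hC : IsCompact C) (i : ℕ) : ((fun g : G => g i) '' C).Finite :=
  (hC.image (continuous_apply i)).finite_of_discrete

theorem amenable : AmenableAtOne G := by
  intro μ hμ h1
  have hC : ∀ n, ∃ C : Set G, C ⊆ {g | ∀ i < n, g i = 1} ∧ IsCompact C ∧ 0 < μ n C := by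
    intro n
    have ho : IsOpen {g : G | ∀ i < n, g i = 1} := by
      have : {g : G | ∀ i < n, g i = 1} = ⋂ i ∈ Finset.range n, (fun g : G => g i) ⁻¹' {1} := by
        ext g; simp
      rw [this]
      exact isOpen_biInter_finset fun i _ => (isOpen_discrete _).preimage (continuous_apply i)
    have := (Measure.mem_support_iff_forall _).1 (h1 n) _ (ho.mem_nhds fun i _ => rfl)
    exact ho.measurableSet.exists_lt_isCompact this
  choose C hCU hCc hCp using hC
  choose S hSne hS using fun i => folner (⋃ n ∈ Finset.range (i + 1), (fun g : G => g i) '' C n)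
    ((Finset.range (i + 1)).finite_toSet.biUnion fun n _ => fin_coord (hCc n) i) i
  have hp : ∀ i, IsProbabilityMeasure (uniformOn (S i : Set H)) := fun i =>
    isProbabilityMeasure_uniformOn' (S i).finite_toSet (hSne i) (S i).measurableSet
  set ν : Measure G := Measure.infinitePi fun i => uniformOn (S i : Set H) with hν
  set δ : ℕ → ENNReal := fun n => ∑' k, (2⁻¹ : ENNReal) ^ (k + n) with hδ
  have hδ0 : Tendsto δ atTop (𝓝 0) := by
    apply ENNReal.tendsto_sum_nat_add (fun k => (2⁻¹ : ENNReal) ^ k)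
    rw [ENNReal.tsum_geometric]; simp
  have hev : ∀ (i : ℕ) (t : Set H), ν ((fun g : G => g i) ⁻¹' t) = uniformOn (S i : Set H) t :=
    fun i t => (measurePreserving_eval_infinitePi _ i).measure_preimage
      MeasurableSet.of_discrete.nullMeasurableSet
  have key : ∀ n, ∀ y ∈ C n, ∀ X : Set G, MeasurableSet X →
      ν {x | x * y ∈ X} ≤ ν X + δ n ∧ ν X ≤ ν {x | x * y ∈ X} + δ n := by
    intro n y hy X hX
    choose φ hφ hφe using fun i => ext_perm (S i) (y i)
    have hΦ : ν.map (fun x i => φ i (x i)) = ν := by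
      rw [hν, Measure.infinitePi_map_pi _ (fun i => Measurable.of_discrete)]
      congr 1
      ext1 i
      exact map_unif _ _ (hφ i)
    have hΦm : Measurable (fun (x : G) i => φ i (x i)) :=
      measurable_pi_lambda _ fun i => Measurable.of_discrete.comp (measurable_pi_apply i)
    have hX' : ν ((fun (x : G) i => φ i (x i)) ⁻¹' X) = ν X := by
      rw [← Measure.map_apply hΦm hX, hΦ]
    set E : Set G := (⋃ i, (fun g : G => g i) ⁻¹' (S i : Set H)ᶜ) ∪
      ⋃ k, (fun g : G => g (k + n)) ⁻¹' {x | x * y (k + n) ∉ S (k + n)} with hE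
    have hEm : ν E ≤ δ n := by
      refine (measure_union_le _ _).trans ?_
      have a : ν (⋃ i, (fun g : G => g i) ⁻¹' (S i : Set H)ᶜ) = 0 := by
        refine measure_iUnion_null fun i => ?_
        rw [hev, uniformOn, cond_apply (S i).measurableSet]
        simp
      rw [a, zero_add]
      refine (measure_iUnion_le _).trans (ENNReal.tsum_le_tsum fun k => ?_)
      rw [hev]
      refine hS _ _ (mem_iUnion₂.2 ⟨n, ?_, y, hy, rfl⟩)
      simp
    have hag : ∀ x ∉ E, (fun i => φ i (x i)) = x * y := by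
      intro x hx
      simp only [hE, mem_union, mem_iUnion, not_or, not_exists, mem_preimage, mem_compl_iff,
        not_not, mem_ofPred_eq] at hx
      funext i
      refine hφe i _ (hx.1 i) ?_
      by_cases h : i < n
      · rw [hCU n hy i h, mul_one]; exact hx.1 i
      · obtain ⟨k, rfl⟩ : ∃ k, i = k + n := ⟨i - n, by omega⟩
        exact hx.2 k
    constructor
    · rw [← hX']
      refine le_trans (measure_mono (t := (fun (x : G) i => φ i (x i)) ⁻¹' X ∪ E) ?_)
        ((measure_union_le _ _).trans (add_le_add_right hEm _))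
      intro x hx
      by_cases h : x ∈ E
      · exact Or.inr h
      · left; rw [mem_preimage, hag x h]; exact hx
    · rw [← hX']
      refine le_trans (measure_mono (t := {x | x * y ∈ X} ∪ E) ?_)
        ((measure_union_le _ _).trans (add_le_add_right hEm _))
      intro x hx
      by_cases h : x ∈ E
      · exact Or.inr h
      · left; rw [mem_preimage, hag x h] at hx; exact hx
  have hcp : ∀ n, IsProbabilityMeasure (cond (μ n) (C n)) := fun n =>
    cond_isProbabilityMeasure (hCp n).ne'
  refine ⟨fun n => cond (μ n) (C n), ν, hcp, inferInstance, fun n => cond_absolutelyContinuous,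
    fun K hK => ?_⟩
  have hKm : MeasurableSet K := hK.measurableSet
  have hm : MeasurableSet {p : G × G | p.1 * p.2 ∈ K} := measurable_mul hKm
  have hae : ∀ n, ∀ᵐ y ∂(cond (μ n) (C n)), y ∈ C n := fun n => ae_cond_mem (hCc n).measurableSet
  refine tendsto_of_tendsto_of_tendsto_of_le_of_le (g := fun n => ν K - δ n)
    (h := fun n => ν K + δ n) ?_ ?_ (fun n => ?_) (fun n => ?_)
  · simpa using ENNReal.Tendsto.sub tendsto_const_nhds hδ0 (Or.inl (measure_ne_top ν K))
  · simpa using tendsto_const_nhds.add hδ0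
  · simp only []
    rw [Measure.prod_apply_symm hm]
    calc ν K - δ n = ∫⁻ _, ν K - δ n ∂(cond (μ n) (C n)) := by simp
      _ ≤ _ := by
        refine lintegral_mono_ae ?_
        filter_upwards [hae n] with y hy
        exact tsub_le_iff_right.2 (key n y hy K hKm).2
  · simp only []
    rw [Measure.prod_apply_symm hm]
    calc _ ≤ ∫⁻ _, ν K + δ n ∂(cond (μ n) (C n)) := by
          refine lintegral_mono_ae ?_
          filter_upwards [hae n] with y hy
          exact (key n y hy K hKm).1
      _ = _ := by simp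

def B0 : Set H := {x | 0 < (x.2 : ℤ) * x.1}

def B : Set G := {g | ∀ i, g i ∈ B0}

theorem B_meas : MeasurableSet B := by
  have : B = ⋂ i, (fun g : G => g i) ⁻¹' B0 := by ext g; simp [B]
  rw [this]
  exact MeasurableSet.iInter fun i => measurable_pi_apply i MeasurableSet.of_discrete

theorem left : LeftHaarNull B := by
  classical
  let s : H := ((0 : ℤ), (-1 : ℤˣ))
  let P : Finset H := {1, s}
  have hne : (1 : H) ≠ s := fun e => by
    have : (1 : ℤˣ) = -1 := congrArg Prod.snd e
    exact absurd this (by decide)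
  have hp : IsProbabilityMeasure (uniformOn (P : Set H)) :=
    isProbabilityMeasure_uniformOn' P.finite_toSet ⟨1, by simp [P]⟩ P.measurableSet
  refine ⟨B, B_meas, subset_rfl, Measure.infinitePi fun _ => uniformOn (P : Set H), inferInstance,
    fun g => ?_⟩
  have h1 : ∀ a : H, uniformOn (P : Set H) {x | a * x ∈ B0} ≤ 2⁻¹ := by
    intro a
    rw [uniformOn, cond_apply P.measurableSet, Measure.count_apply_finset,
      Finset.card_pair hne]
    have : ∃ z : H, (P : Set H) ∩ {x | a * x ∈ B0} ⊆ {z} := by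
      by_cases h : a ∈ B0
      · refine ⟨1, ?_⟩
        rintro x ⟨hx, hx'⟩
        simp only [P, Finset.coe_insert, Finset.coe_singleton, mem_insert_iff,
          mem_singleton_iff] at hx
        rcases hx with rfl | rfl
        · rfl
        · exfalso
          simp only [B0, mem_ofPred_eq, mul_fst, mul_snd, s] at h hx'
          simp at hx'
          omega
      · refine ⟨s, ?_⟩
        rintro x ⟨hx, hx'⟩
        simp only [P, Finset.coe_insert, Finset.coe_singleton, mem_insert_iff,
          mem_singleton_iff] at hx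
        rcases hx with rfl | rfl
        · exact absurd (by simpa using hx') h
        · rfl
    obtain ⟨z, hz⟩ := this
    have := measure_mono (μ := Measure.count) hz
    rw [Measure.count_singleton] at this
    simpa using mul_le_mul_right this ((2 : ENNReal)⁻¹)
  have h2 : ∀ n : ℕ, (Measure.infinitePi fun _ : ℕ => uniformOn (P : Set H))
      ((fun x => g * x) '' B) ≤ 2⁻¹ ^ n := by
    intro n
    refine le_trans (measure_mono (t := Set.pi (Finset.range n) fun i => {x | (g i)⁻¹ * x ∈ B0}) ?_) ?_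
    · rintro _ ⟨x, hx, rfl⟩ i _
      simpa using hx i
    · rw [Measure.infinitePi_pi _ fun _ _ => MeasurableSet.of_discrete]
      refine (Finset.prod_le_prod' fun i _ => h1 _).trans ?_
      simp
  refine le_antisymm (ge_of_tendsto' (x := atTop) ?_ h2) (zero_le)
  exact ENNReal.tendsto_pow_atTop_nhds_zero_of_lt_one (by simp)

theorem not_right : ¬ RightHaarNull B := by
  rintro ⟨B', -, hB, μ, hμ, h⟩
  obtain ⟨K, -, hK, hp⟩ := (MeasurableSet.univ (α := G)).exists_lt_isCompact (μ := μ) (r := 0)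
    (by simp)
  have : ∀ i, ∃ M : ℕ, ∀ x ∈ K, (x i).1.natAbs ≤ M := by
    intro i
    obtain ⟨M, hM⟩ := ((fin_coord hK i).image fun y : H => y.1.natAbs).bddAbove
    exact ⟨M, fun x hx => hM ⟨_, ⟨x, hx, rfl⟩, rfl⟩⟩
  choose M hM using this
  let u : G := fun i => (((M i : ℤ) + 1, 1) : ℤ × ℤˣ)
  refine hp.ne' (measure_mono_null ?_ (h u⁻¹))
  intro x hx
  refine ⟨x * u, hB fun i => ?_, by simp⟩
  have := hM i x hx
  simp only [B0, Pi.mul_apply, mem_ofPred_eq, mul_fst, mul_snd, u]
  rcases Int.units_eq_one_or (x i).2 with e | e <;> rw [e] <;> simp <;> omega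

theorem result : ∃ (G : Type) (_ : Group G) (_ : TopologicalSpace G) (_ : IsTopologicalGroup G)
    (_ : PolishSpace G) (_ : MeasurableSpace G) (_ : BorelSpace G),
    AmenableAtOne G ∧ ∃ A : Set G, LeftHaarNull A ∧ ¬ RightHaarNull A :=
  ⟨G, inferInstance, inferInstance, inferInstance, inferInstance, inferInstance, inferInstance,
    amenable, B, left, not_right⟩

end Pool.Agent.Results.MP_092965_lc.Counter
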